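import Pool.Agent.helper82.T6.SpecL

set_option autoImplicit false

/-!
# T6, C3: large powerful part
-/

namespace Pool.Agent.T6

open Finset Pool.Agent.helper3.FT

lemma C3_sum : ∃ G : ℝ, 0 ≤ G ∧ ∀ S : Finset ℕ, ∑ n ∈ S, 1 / ((n : ℝ) * √n) ≤ G := by
  have h1 : Summable (fun n : ℕ => 1 / (n : ℝ) ^ (3 / 2 : ℝ)) :=
    Real.summable_one_div_nat_rpow.2 (by norm_num)
  have h2 : ∀ n : ℕ, 1 / ((n : ℝ) * √n) = 1 / (n : ℝ) ^ (3 / 2 : ℝ) := by
    intro n
    rcases Nat.eq_zero_or_pos n with h | h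
    · rw [h]; simp
    · have h0 : (0 : ℝ) < n := by exact_mod_cast h
      rw [Real.sqrt_eq_rpow]
      congr 1
      rw [show (3 / 2 : ℝ) = 1 + 1 / 2 by norm_num, Real.rpow_add h0, Real.rpow_one]
  refine ⟨∑' n : ℕ, 1 / (n : ℝ) ^ (3 / 2 : ℝ), tsum_nonneg (fun n => by positivity), fun S => ?_⟩
  rw [sum_congr rfl (fun n _ => h2 n)]
  exact h1.sum_le_tsum S (fun n _ => by positivity)

lemma C3_tail (t : ℝ) (ht : 0 < t) (S : Finset ℕ) (hS : ∀ a ∈ S, t < a) :
    ∑ a ∈ S, 1 / (a : ℝ) ^ 2 ≤ 2 / t := by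
  have hsub : S ⊆ Ioo ⌊t⌋₊ (S.sup id + 1) := by
    intro a ha
    rw [mem_Ioo]
    refine ⟨(Nat.floor_lt ht.le).2 (hS a ha), Nat.lt_succ_iff.2 (le_sup (f := id) ha)⟩
  have h1 := sum_Ioo_inv_sq_le (α := ℝ) ⌊t⌋₊ (S.sup id + 1)
  have h2 : ∑ a ∈ S, 1 / (a : ℝ) ^ 2 ≤ ∑ i ∈ Ioo ⌊t⌋₊ (S.sup id + 1), ((i : ℝ) ^ 2)⁻¹ := by
    calc ∑ a ∈ S, 1 / (a : ℝ) ^ 2 = ∑ a ∈ S, ((a : ℝ) ^ 2)⁻¹ := by simp
      _ ≤ _ := sum_le_sum_of_subset_of_nonneg hsub (fun i _ _ => by positivity)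
  refine (h2.trans h1).trans ?_
  apply div_le_div_of_nonneg_left (by norm_num) ht
  exact (Nat.lt_floor_add_one t).le

lemma C3_pow (s : ℕ) (hs : 1 ≤ s) (h : ∀ p : ℕ, p.Prime → p ∣ s → p ^ 2 ∣ s) :
    ∃ a c : ℕ, 1 ≤ a ∧ 1 ≤ c ∧ s = a ^ 2 * c ^ 3 := by
  obtain ⟨c, b, hbc, hsq⟩ := Nat.sq_mul_squarefree s
  have hc0 : c ≠ 0 := hsq.ne_zero
  have hcb : c ∣ b := by
    rw [← Nat.prod_primeFactors_of_squarefree hsq]
    apply Finset.prod_primes_dvd
    · intro p hp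
      exact (Nat.prime_of_mem_primeFactors hp).prime
    · intro p hp
      have hpp := Nat.prime_of_mem_primeFactors hp
      have hpc := Nat.dvd_of_mem_primeFactors hp
      by_contra hpb
      have h1 : p ^ 2 ∣ s := h p hpp (hbc ▸ (hpc.mul_left _))
      rw [← hbc] at h1
      have h2 : Nat.Coprime (p ^ 2) (b ^ 2) :=
        Nat.Coprime.pow 2 2 ((Nat.Prime.coprime_iff_not_dvd hpp).2 hpb)
      have h3 : p ^ 2 ∣ c := h2.dvd_of_dvd_mul_left h1
      have h4 : IsUnit p := hsq p (by rw [← sq]; exact h3)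
      exact hpp.not_isUnit h4
  obtain ⟨a, ha⟩ := hcb
  refine ⟨a, c, ?_, by omega, ?_⟩
  · rcases Nat.eq_zero_or_pos a with h0 | h0
    · rw [h0, mul_zero] at ha
      rw [ha] at hbc
      simp at hbc
      omega
    · exact h0
  · rw [← hbc, ha]; ring

lemma C3_pw (d : ℕ) (hd : 1 ≤ d) : pw d ∣ d ∧ 1 ≤ pw d ∧ ∀ p : ℕ, p.Prime → p ∣ pw d → p ^ 2 ∣ pw d := by
  have h1 : pw d ∣ d := by
    have h := Nat.prod_factorization_pow_eq_self (n := d) (by omega)
    have h2 : ∏ p ∈ d.primeFactors, p ^ d.factorization p = d := by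
      have h' := h
      unfold Finsupp.prod at h'
      rwa [Nat.support_factorization] at h'
    have h3 : pw d ∣ ∏ p ∈ d.primeFactors, p ^ d.factorization p := by
      unfold pw
      exact prod_dvd_prod_of_subset _ _ _ (filter_subset _ _)
    rwa [h2] at h3
  refine ⟨h1, Nat.pos_of_dvd_of_pos h1 (by omega), ?_⟩
  intro p hp hpd
  have h2 : p ∣ ∏ p ∈ d.primeFactors.filter (fun p => 2 ≤ d.factorization p), p ^ d.factorization p := by
    have h' := hpd
    unfold pw at h'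
    exact h'
  obtain ⟨q, hq, hd'⟩ := (Prime.dvd_finsetProd_iff hp.prime _).1 h2
  have hq' := hq
  rw [mem_filter, Nat.mem_primeFactors] at hq'
  obtain ⟨⟨hqp, hqd, _⟩, hq2⟩ := hq'
  have h4 : p = q := (Nat.prime_dvd_prime_iff_eq hp hqp).1 (hp.dvd_of_dvd_pow hd')
  have h5 : q ^ d.factorization q ∣ pw d := by
    unfold pw
    exact dvd_prod_of_mem (fun p => p ^ d.factorization p) hq
  rw [h4]
  exact (pow_dvd_pow q hq2).trans h5

lemma C3_omega (n : ℕ) (hn : 1 ≤ n) : (4 : ℝ) ^ n.primeFactors.card ≤ 4 ^ 16 * √n := by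
  have h1 : 16 ^ n.primeFactors.card ≤ 16 ^ 16 * n := by
    calc 16 ^ n.primeFactors.card = ∏ p ∈ n.primeFactors, 16 := by rw [prod_const]
      _ ≤ ∏ p ∈ n.primeFactors, ((if p < 16 then 16 else 1) * p) := by
          apply prod_le_prod'
          intro p hp
          have hpp := (Nat.prime_of_mem_primeFactors hp).pos
          split_ifs with h
          · omega
          · omega
      _ = (∏ p ∈ n.primeFactors, (if p < 16 then 16 else 1)) * ∏ p ∈ n.primeFactors, p := prod_mul_distrib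
      _ ≤ 16 ^ 16 * n := by
          apply Nat.mul_le_mul
          · rw [← prod_filter, prod_const]
            apply Nat.pow_le_pow_right (by norm_num)
            calc (n.primeFactors.filter (fun p => p < 16)).card ≤ (range 16).card := by
                  apply card_le_card
                  intro p hp
                  rw [mem_filter] at hp
                  exact mem_range.2 hp.2
              _ = 16 := card_range 16
          · exact Nat.le_of_dvd (by omega) (Nat.prod_primeFactors_dvd n)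
  have h2 : ((4 : ℝ) ^ n.primeFactors.card) ^ 2 ≤ (4 ^ 16 * √n) ^ 2 := by
    rw [mul_pow, Real.sq_sqrt (Nat.cast_nonneg n), ← pow_mul, mul_comm n.primeFactors.card 2, pow_mul]
    have h3 : ((16 ^ n.primeFactors.card : ℕ) : ℝ) ≤ ((16 ^ 16 * n : ℕ) : ℝ) := by exact_mod_cast h1
    push_cast at h3
    norm_num at h3 ⊢
    exact h3
  exact le_of_sq_le_sq h2 (by positivity)

lemma C3_part2 (G : ℝ) (hG : 0 ≤ G) (hGS : ∀ S : Finset ℕ, ∑ n ∈ S, 1 / ((n : ℝ) * √n) ≤ G)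
    (S : Finset ℕ) (hS : ∀ s ∈ S, 1 ≤ s ∧ ∀ p : ℕ, p.Prime → p ∣ s → p ^ 2 ∣ s) :
    ∑ s ∈ S, (4 : ℝ) ^ s.primeFactors.card / s ≤ (4 ^ 16 * G) * (4 ^ 16 * G) := by
  classical
  have hex : ∀ s : ℕ, ∃ q : ℕ × ℕ, s ∈ S → 1 ≤ q.1 ∧ 1 ≤ q.2 ∧ s = q.1 ^ 2 * q.2 ^ 3 := by
    intro s
    by_cases h : s ∈ S
    · obtain ⟨a, c, h1, h2, h3⟩ := C3_pow s (hS s h).1 (hS s h).2
      exact ⟨(a, c), fun _ => ⟨h1, h2, h3⟩⟩
    · exact ⟨(1, 1), fun h' => absurd h' h⟩
  choose g hg using hex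
  have hinj : Set.InjOn g (S : Set ℕ) := by
    intro a ha b hb hab
    rw [(hg a ha).2.2, (hg b hb).2.2, hab]
  set H : ℕ → ℝ := fun n => 4 ^ 16 * (1 / ((n : ℝ) * √n)) with hH
  have hH0 : ∀ n, 0 ≤ H n := fun n => by rw [hH]; positivity
  have hterm : ∀ s ∈ S, (4 : ℝ) ^ s.primeFactors.card / s ≤ H (g s).1 * H (g s).2 := by
    intro s hs
    obtain ⟨h1, h2, h3⟩ := hg s hs
    set a := (g s).1
    set c := (g s).2
    have ha : (1 : ℝ) ≤ a := by exact_mod_cast h1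
    have hc : (1 : ℝ) ≤ c := by exact_mod_cast h2
    have hpf : s.primeFactors.card ≤ a.primeFactors.card + c.primeFactors.card := by
      rw [h3, Nat.primeFactors_mul (by positivity) (by positivity), Nat.primeFactors_pow _ (by norm_num),
        Nat.primeFactors_pow _ (by norm_num)]
      exact card_union_le _ _
    have hnum : (4 : ℝ) ^ s.primeFactors.card ≤ (4 ^ 16 * √a) * (4 ^ 16 * √c) := by
      calc (4 : ℝ) ^ s.primeFactors.card ≤ 4 ^ (a.primeFactors.card + c.primeFactors.card) :=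
            pow_le_pow_right₀ (by norm_num) hpf
        _ = 4 ^ a.primeFactors.card * 4 ^ c.primeFactors.card := pow_add _ _ _
        _ ≤ _ := mul_le_mul (C3_omega a h1) (C3_omega c h2) (by positivity) (by positivity)
    have hsr : (s : ℝ) = (a : ℝ) ^ 2 * (c : ℝ) ^ 3 := by
      conv_lhs => rw [h3]
      push_cast
      ring
    have hsa : 0 < √(a : ℝ) := Real.sqrt_pos.2 (by linarith)
    have hsc : 0 < √(c : ℝ) := Real.sqrt_pos.2 (by linarith)
    have hsa2 : √(a : ℝ) * √(a : ℝ) = a := Real.mul_self_sqrt (by linarith)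
    have hsc2 : √(c : ℝ) * √(c : ℝ) = c := Real.mul_self_sqrt (by linarith)
    calc (4 : ℝ) ^ s.primeFactors.card / s ≤ ((4 ^ 16 * √a) * (4 ^ 16 * √c)) / s :=
          div_le_div_of_nonneg_right hnum (Nat.cast_nonneg _)
      _ = (4 ^ 16 * (√a / (a : ℝ) ^ 2)) * (4 ^ 16 * (√c / (c : ℝ) ^ 3)) := by
          rw [hsr]; field_simp
      _ ≤ H a * H c := by
          apply mul_le_mul
          · rw [hH]
            apply mul_le_mul_of_nonneg_left _ (by positivity)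
            rw [div_le_div_iff₀ (by positivity) (by positivity)]
            calc √(a : ℝ) * (a * √a) = a * (√(a : ℝ) * √a) := by ring
              _ = a * a := by rw [hsa2]
              _ ≤ 1 * (a : ℝ) ^ 2 := by nlinarith
          · rw [hH]
            apply mul_le_mul_of_nonneg_left _ (by positivity)
            rw [div_le_div_iff₀ (by positivity) (by positivity)]
            calc √(c : ℝ) * (c * √c) = c * (√(c : ℝ) * √c) := by ring
              _ = c * c := by rw [hsc2]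
              _ ≤ 1 * (c : ℝ) ^ 3 := by nlinarith [mul_nonneg (mul_nonneg (by linarith : (0 : ℝ) ≤ c) (by linarith : (0 : ℝ) ≤ c)) (by linarith : (0 : ℝ) ≤ (c : ℝ) - 1)]
          · positivity
          · exact hH0 a
  calc ∑ s ∈ S, (4 : ℝ) ^ s.primeFactors.card / s ≤ ∑ s ∈ S, H (g s).1 * H (g s).2 := sum_le_sum hterm
    _ = ∑ x ∈ S.image g, H x.1 * H x.2 := by rw [sum_image hinj]
    _ ≤ ∑ x ∈ (S.image g).image Prod.fst ×ˢ (S.image g).image Prod.snd, H x.1 * H x.2 := by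
        apply sum_le_sum_of_subset_of_nonneg
        · intro x hx
          rw [mem_product]
          exact ⟨mem_image_of_mem _ hx, mem_image_of_mem _ hx⟩
        · intro x _ _
          exact mul_nonneg (hH0 _) (hH0 _)
    _ = (∑ a ∈ (S.image g).image Prod.fst, H a) * ∑ c ∈ (S.image g).image Prod.snd, H c := by
        rw [sum_product, sum_mul_sum]
    _ ≤ (4 ^ 16 * G) * (4 ^ 16 * G) := by
        apply mul_le_mul
        · rw [hH, ← mul_sum]
          exact mul_le_mul_of_nonneg_left (hGS _) (by positivity)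
        · rw [hH, ← mul_sum]
          exact mul_le_mul_of_nonneg_left (hGS _) (by positivity)
        · exact sum_nonneg fun n _ => hH0 n
        · positivity

lemma C3_mult (N m : ℕ) (hm : 1 ≤ m) (S : Finset ℕ) (hS : ∀ d ∈ S, 1 ≤ d ∧ d ≤ N ∧ m ∣ d) :
    (S.card : ℝ) ≤ N / m := by
  have h1 : S.card ≤ N / m := by
    have h2 : S ⊆ (Icc 1 (N / m)).image (fun k => m * k) := by
      intro d hd
      obtain ⟨h3, h4, k, hk⟩ := hS d hd
      rw [mem_image]
      refine ⟨k, ?_, hk.symm⟩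
      rw [mem_Icc]
      constructor
      · rcases Nat.eq_zero_or_pos k with h0 | h0
        · rw [h0, mul_zero] at hk; omega
        · exact h0
      · rw [Nat.le_div_iff_mul_le (by omega), mul_comm, ← hk]
        exact h4
    calc S.card ≤ ((Icc 1 (N / m)).image (fun k => m * k)).card := card_le_card h2
      _ ≤ (Icc 1 (N / m)).card := card_image_le
      _ = N / m := by rw [Nat.card_Icc, Nat.add_sub_cancel]
  calc (S.card : ℝ) ≤ ((N / m : ℕ) : ℝ) := by exact_mod_cast h1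
    _ ≤ (N : ℝ) / m := Nat.cast_div_le

lemma C3_part1 (G : ℝ) (hGS : ∀ S : Finset ℕ, ∑ n ∈ S, 1 / ((n : ℝ) * √n) ≤ G)
    (y u : ℕ) (P : Finset (ℕ × ℕ)) (hP : ∀ p ∈ P, p ∈ PR y u ∧ (2 : ℝ) ^ ((u : ℝ) / 25) < pw p.1) :
    (P.card : ℝ) ≤ 8 * G * 4 ^ u * (2 : ℝ) ^ (-((u : ℝ) / 50)) := by
  classical
  set Z : ℝ := (2 : ℝ) ^ ((u : ℝ) / 25) with hZ
  have hZ0 : 0 < Z := by rw [hZ]; positivity
  set N := 2 ^ (u + 1) with hN
  have hPR : ∀ p ∈ P, 1 ≤ p.1 ∧ p.1 ≤ N ∧ p.2 < N := by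
    intro p hp
    have h := (hP p hp).1
    unfold PR at h
    rw [mem_filter, mem_product, mem_Ico, mem_range] at h
    exact ⟨Nat.one_le_two_pow.trans h.1.1.1, h.1.1.2.le, h.1.2⟩
  -- the pairs (a, c)
  set Q : Finset (ℕ × ℕ) := ((Icc 1 N) ×ˢ (Icc 1 N)).filter (fun q => Z < ((q.1 ^ 2 * q.2 ^ 3 : ℕ) : ℝ)) with hQ
  have hcov : P ⊆ Q.biUnion (fun q => ((Icc 1 N).filter (fun d => q.1 ^ 2 * q.2 ^ 3 ∣ d)) ×ˢ range N) := by
    intro p hp
    obtain ⟨h1, h2, h3⟩ := hPR p hp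
    obtain ⟨h4, h5, h6⟩ := C3_pw p.1 h1
    obtain ⟨a, c, ha, hc, hac⟩ := C3_pow (pw p.1) h5 h6
    rw [mem_biUnion]
    have h7 : pw p.1 ≤ N := (Nat.le_of_dvd h1 h4).trans h2
    have h8 : a ≤ N := by
      calc a ≤ a ^ 2 := Nat.le_self_pow (by norm_num) a
        _ ≤ a ^ 2 * c ^ 3 := Nat.le_mul_of_pos_right _ (by positivity)
        _ ≤ N := hac ▸ h7
    have h9 : c ≤ N := by
      calc c ≤ c ^ 3 := Nat.le_self_pow (by norm_num) c
        _ ≤ a ^ 2 * c ^ 3 := Nat.le_mul_of_pos_left _ (by positivity)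
        _ ≤ N := hac ▸ h7
    refine ⟨(a, c), ?_, ?_⟩
    · rw [hQ, mem_filter, mem_product, mem_Icc, mem_Icc]
      refine ⟨⟨⟨ha, h8⟩, ⟨hc, h9⟩⟩, ?_⟩
      simp only
      rw [← hac]
      exact (hP p hp).2
    · rw [mem_product, mem_filter, mem_Icc, mem_range]
      refine ⟨⟨⟨h1, h2⟩, ?_⟩, h3⟩
      simp only
      rw [← hac]
      exact h4
  have hcard : (P.card : ℝ) ≤ ∑ q ∈ Q, (N : ℝ) / ((q.1 ^ 2 * q.2 ^ 3 : ℕ) : ℝ) * N := by
    calc (P.card : ℝ) ≤ ((Q.biUnion (fun q => ((Icc 1 N).filter (fun d => q.1 ^ 2 * q.2 ^ 3 ∣ d)) ×ˢ range N)).card : ℝ) := by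
          exact_mod_cast card_le_card hcov
      _ ≤ ∑ q ∈ Q, ((((Icc 1 N).filter (fun d => q.1 ^ 2 * q.2 ^ 3 ∣ d)) ×ˢ range N).card : ℝ) := by
          exact_mod_cast card_biUnion_le
      _ ≤ _ := by
          apply sum_le_sum
          intro q hq
          rw [card_product, card_range, Nat.cast_mul]
          apply mul_le_mul_of_nonneg_right _ (Nat.cast_nonneg _)
          rw [hQ, mem_filter, mem_product, mem_Icc, mem_Icc] at hq
          apply C3_mult
          · have h1 := hq.1.1.1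
            have h2 := hq.1.2.1
            exact Nat.succ_le_of_lt (by positivity)
          · intro d hd
            rw [mem_filter, mem_Icc] at hd
            exact ⟨hd.1.1, hd.1.2, hd.2⟩
  have hNr : (N : ℝ) = 2 * 2 ^ u := by
    rw [hN]; push_cast; rw [pow_succ]; ring
  have hZs : √Z = (2 : ℝ) ^ ((u : ℝ) / 50) := by
    rw [hZ, Real.sqrt_eq_rpow, ← Real.rpow_mul (by norm_num)]
    congr 1
    ring
  have hsq0 : 0 < √Z := Real.sqrt_pos.2 hZ0
  have hsum : ∑ q ∈ Q, 1 / ((q.1 ^ 2 * q.2 ^ 3 : ℕ) : ℝ) ≤ 2 * G / √Z := by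
    calc ∑ q ∈ Q, 1 / ((q.1 ^ 2 * q.2 ^ 3 : ℕ) : ℝ)
        = ∑ c ∈ Icc 1 N, ∑ a ∈ (Icc 1 N).filter (fun a => Z < ((a ^ 2 * c ^ 3 : ℕ) : ℝ)), 1 / ((a ^ 2 * c ^ 3 : ℕ) : ℝ) := by
          rw [hQ, sum_filter, sum_product_right]
          refine sum_congr rfl fun c _ => ?_
          rw [sum_filter]
      _ ≤ ∑ c ∈ Icc 1 N, (2 / √Z) * (1 / ((c : ℝ) * √c)) := by
          apply sum_le_sum
          intro c hc
          rw [mem_Icc] at hc
          have hc1 : (1 : ℝ) ≤ c := by exact_mod_cast hc.1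
          have hc0 : (0 : ℝ) < c := by linarith
          have hsc : 0 < √(c : ℝ) := Real.sqrt_pos.2 hc0
          have hsc2 : √(c : ℝ) * √(c : ℝ) = c := Real.mul_self_sqrt hc0.le
          have ht : 0 < √Z / ((c : ℝ) * √c) := by positivity
          have h1 := C3_tail (√Z / ((c : ℝ) * √c)) ht
            ((Icc 1 N).filter (fun a => Z < ((a ^ 2 * c ^ 3 : ℕ) : ℝ))) (by
              intro a ha
              rw [mem_filter, mem_Icc] at ha
              have h2 := ha.2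
              push_cast at h2
              rw [div_lt_iff₀ (by positivity)]
              have h3 : Z < ((a : ℝ) * ((c : ℝ) * √c)) ^ 2 := by
                calc Z < (a : ℝ) ^ 2 * (c : ℝ) ^ 3 := h2
                  _ = ((a : ℝ) * ((c : ℝ) * √c)) ^ 2 := by
                    have : ((a : ℝ) * ((c : ℝ) * √c)) ^ 2 = (a : ℝ) ^ 2 * (c : ℝ) ^ 2 * (√(c : ℝ) * √(c : ℝ)) := by ring
                    rw [this, hsc2]; ring
              rw [← Real.sqrt_sq (show (0 : ℝ) ≤ (a : ℝ) * ((c : ℝ) * √c) by positivity)]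
              exact Real.sqrt_lt_sqrt hZ0.le h3)
          calc ∑ a ∈ (Icc 1 N).filter (fun a => Z < ((a ^ 2 * c ^ 3 : ℕ) : ℝ)), 1 / ((a ^ 2 * c ^ 3 : ℕ) : ℝ)
              = (1 / (c : ℝ) ^ 3) * ∑ a ∈ (Icc 1 N).filter (fun a => Z < ((a ^ 2 * c ^ 3 : ℕ) : ℝ)), 1 / (a : ℝ) ^ 2 := by
                rw [mul_sum]
                refine sum_congr rfl fun a _ => ?_
                push_cast
                rw [one_div_mul_one_div, mul_comm ((c : ℝ) ^ 3)]
            _ ≤ (1 / (c : ℝ) ^ 3) * (2 / (√Z / ((c : ℝ) * √c))) := mul_le_mul_of_nonneg_left h1 (by positivity)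
            _ = (2 / √Z) * (1 / ((c : ℝ) * √c)) := by
                have e : (c : ℝ) ^ 3 = ((c : ℝ) * √c) * ((c : ℝ) * √c) := by
                  have : ((c : ℝ) * √c) * ((c : ℝ) * √c) = (c : ℝ) ^ 2 * (√(c : ℝ) * √(c : ℝ)) := by ring
                  rw [this, hsc2]; ring
                rw [e]
                field_simp
      _ = (2 / √Z) * ∑ c ∈ Icc 1 N, (1 / ((c : ℝ) * √c)) := by rw [mul_sum]
      _ ≤ (2 / √Z) * G := mul_le_mul_of_nonneg_left (hGS _) (by positivity)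
      _ = 2 * G / √Z := by ring
  calc (P.card : ℝ) ≤ ∑ q ∈ Q, (N : ℝ) / ((q.1 ^ 2 * q.2 ^ 3 : ℕ) : ℝ) * N := hcard
    _ = (N : ℝ) ^ 2 * ∑ q ∈ Q, 1 / ((q.1 ^ 2 * q.2 ^ 3 : ℕ) : ℝ) := by
        rw [mul_sum]
        refine sum_congr rfl fun q _ => ?_
        ring
    _ ≤ (N : ℝ) ^ 2 * (2 * G / √Z) := mul_le_mul_of_nonneg_left hsum (by positivity)
    _ = 8 * G * 4 ^ u * (2 : ℝ) ^ (-((u : ℝ) / 50)) := by
        rw [hZs, hNr, Real.rpow_neg (by norm_num), mul_pow, ← pow_mul, mul_comm u 2, pow_mul]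
        norm_num
        ring

theorem C3 : C3_stmt := by
  classical
  obtain ⟨G, hG, hGS⟩ := C3_sum
  refine ⟨1 + 8 * G + (4 ^ 16 * G) * (4 ^ 16 * G), ?_, ?_, ?_⟩
  · have : 0 ≤ (4 ^ 16 * G) * (4 ^ 16 * G) := by positivity
    linarith
  · intro y u
    have h1 := C3_part1 G hGS y u ((PR y u).filter (fun p => (2 : ℝ) ^ ((u : ℝ) / 25) < pw p.1)) (by
      intro p hp
      rw [mem_filter] at hp
      exact hp)
    refine h1.trans ?_
    apply mul_le_mul_of_nonneg_right _ (by positivity)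
    apply mul_le_mul_of_nonneg_right _ (by positivity)
    have : 0 ≤ (4 ^ 16 * G) * (4 ^ 16 * G) := by positivity
    linarith
  · intro S hS
    refine (C3_part2 G hG hGS S hS).trans ?_
    linarith

end Pool.Agent.T6
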