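import Pool.Agent.helper82.T6.SpecL

set_option autoImplicit false

/-!
# T6, C6: the sum of the good errors over the levels
-/

namespace Pool.Agent.T6

open Finset Pool.Agent.helper3.FT

lemma C6_geom (q : ℝ) (hq0 : 0 < q) (hq1 : q < 1) (u w₀ : ℕ) (hw : w₀ < u) :
    ∑ w ∈ range (w₀ + 1), q ^ (u - w) ≤ q ^ (u - w₀) * (1 - q)⁻¹ := by
  have h1 : ∑ w ∈ range (w₀ + 1), q ^ (u - w) = q ^ (u - w₀) * ∑ w ∈ range (w₀ + 1), q ^ (w₀ + 1 - 1 - w) := by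
    rw [mul_sum]
    refine sum_congr rfl fun w hw' => ?_
    rw [mem_range] at hw'
    rw [← pow_add]
    congr 1
    omega
  rw [h1, sum_range_reflect (fun k => q ^ k) (w₀ + 1)]
  apply mul_le_mul_of_nonneg_left _ (by positivity)
  rw [geom_sum_eq hq1.ne, ← neg_sub (1 : ℝ) (q ^ (w₀ + 1)), ← neg_sub (1 : ℝ) q, neg_div_neg_eq, div_eq_mul_inv]
  have h2 : 0 < (1 - q)⁻¹ := inv_pos.2 (by linarith)
  have h3 : 0 < q ^ (w₀ + 1) := by positivity
  nlinarith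

theorem C6 (hC5 : C5_stmt) : C6_stmt := by
  classical
  obtain ⟨C, hC, h5⟩ := hC5
  set q : ℝ := (2 : ℝ) ^ (-(24 / 100 : ℝ)) with hq
  have hq0 : 0 < q := by rw [hq]; positivity
  have hq1 : q < 1 := by
    rw [hq]
    exact Real.rpow_lt_one_of_one_lt_of_neg (by norm_num) (by norm_num)
  have hqi : 1 ≤ (1 - q)⁻¹ := by
    rw [one_le_inv₀ (by linarith)]
    linarith
  refine ⟨343 * C * (1 - q)⁻¹, ?_, ?_⟩
  · have h1 : 1 ≤ C * (1 - q)⁻¹ := by nlinarith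
    nlinarith
  intro b y u w₀ s Φ hb hs hΦ hIH hw
  have hs0 : 0 < s := by linarith
  have h2u : (0 : ℝ) < √(2 ^ u) := Real.sqrt_pos.2 (by positivity)
  set V : ℝ := √(2 ^ u) / s ^ 2 with hV
  have hV0 : 0 < V := by rw [hV]; positivity
  have hΦu : 0 < Φ u := by linarith [hΦ.two u]
  have hterm : ∀ w ∈ range (w₀ + 1), (∑ p ∈ (PR y w).filter (fun p => Gd b p.1 p.2 ∧ lamb b p.1 p.2 ≤ V),
      343 * (V / lamb b p.1 p.2) ^ 3) * s ^ 7 ≤ 343 * C * Φ u * 4 ^ u * q ^ (u - w) := by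
    intro w hw'
    rw [mem_range] at hw'
    have hwu : w < u := by omega
    have h1 := h5 b y u Φ hb hΦ hIH w hwu V hV0
    have h2 : Φ w ≤ (2 : ℝ) ^ (((u - w : ℕ) : ℝ) / 100) * Φ u := hΦ.gr w u hwu.le
    have hVw : (V / √(2 ^ w)) ^ (7 / 2 : ℝ) * s ^ 7 = (2 : ℝ) ^ (7 / 4 * ((u - w : ℕ) : ℝ)) := by
      have e1 : V / √(2 ^ w) = (2 : ℝ) ^ (((u - w : ℕ) : ℝ) / 2) / s ^ 2 := by
        rw [hV, Real.sqrt_eq_rpow, Real.sqrt_eq_rpow, ← Real.rpow_natCast (2 : ℝ) u, ← Real.rpow_natCast (2 : ℝ) w,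
          ← Real.rpow_mul (by norm_num), ← Real.rpow_mul (by norm_num), div_div, mul_comm (s ^ 2), ← div_div,
          ← Real.rpow_sub (by norm_num), Nat.cast_sub hwu.le]
        congr 2
        ring
      rw [e1, Real.div_rpow (by positivity) (by positivity), ← Real.rpow_mul (by norm_num)]
      have e2 : (s ^ 2) ^ (7 / 2 : ℝ) = s ^ 7 := by
        rw [← Real.rpow_natCast s 2, ← Real.rpow_mul hs0.le, ← Real.rpow_natCast s 7]
        congr 1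
        norm_num
      rw [e2, div_mul_cancel₀ _ (by positivity)]
      congr 1
      ring
    have h4w : (4 : ℝ) ^ w = 4 ^ u * (2 : ℝ) ^ (-(2 * ((u - w : ℕ) : ℝ))) := by
      have e1 : (4 : ℝ) ^ u = 4 ^ w * 4 ^ (u - w) := by rw [← pow_add]; congr 1; omega
      have e2 : (2 : ℝ) ^ (2 * ((u - w : ℕ) : ℝ)) = 4 ^ (u - w) := by
        rw [Real.rpow_mul (by norm_num), Real.rpow_natCast]
        norm_num
      rw [Real.rpow_neg (by norm_num), e2, e1]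
      field_simp
    have hqw : q ^ (u - w) = (2 : ℝ) ^ (((u - w : ℕ) : ℝ) / 100) * (2 : ℝ) ^ (-(2 * ((u - w : ℕ) : ℝ))) *
        (2 : ℝ) ^ (7 / 4 * ((u - w : ℕ) : ℝ)) := by
      rw [hq, ← Real.rpow_natCast, ← Real.rpow_mul (by norm_num), ← Real.rpow_add (by norm_num),
        ← Real.rpow_add (by norm_num)]
      congr 1
      ring
    calc (∑ p ∈ (PR y w).filter (fun p => Gd b p.1 p.2 ∧ lamb b p.1 p.2 ≤ V), 343 * (V / lamb b p.1 p.2) ^ 3) * s ^ 7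
        = 343 * (∑ p ∈ (PR y w).filter (fun p => Gd b p.1 p.2 ∧ lamb b p.1 p.2 ≤ V), (V / lamb b p.1 p.2) ^ 3) * s ^ 7 := by
          rw [mul_sum]
      _ ≤ 343 * (C * Φ w * 4 ^ w * (V / √(2 ^ w)) ^ (7 / 2 : ℝ)) * s ^ 7 := by
          apply mul_le_mul_of_nonneg_right _ (by positivity)
          apply mul_le_mul_of_nonneg_left _ (by norm_num)
          exact h1
      _ = 343 * C * 4 ^ w * ((V / √(2 ^ w)) ^ (7 / 2 : ℝ) * s ^ 7) * Φ w := by ring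
      _ ≤ 343 * C * 4 ^ w * ((V / √(2 ^ w)) ^ (7 / 2 : ℝ) * s ^ 7) * ((2 : ℝ) ^ (((u - w : ℕ) : ℝ) / 100) * Φ u) := by
          apply mul_le_mul_of_nonneg_left h2
          positivity
      _ = 343 * C * Φ u * 4 ^ u * q ^ (u - w) := by
          rw [hVw, h4w, hqw]; ring
  calc (∑ w ∈ range (w₀ + 1), ∑ p ∈ (PR y w).filter (fun p => Gd b p.1 p.2 ∧ lamb b p.1 p.2 ≤ V),
      343 * (V / lamb b p.1 p.2) ^ 3) * s ^ 7
      = ∑ w ∈ range (w₀ + 1), (∑ p ∈ (PR y w).filter (fun p => Gd b p.1 p.2 ∧ lamb b p.1 p.2 ≤ V),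
      343 * (V / lamb b p.1 p.2) ^ 3) * s ^ 7 := by rw [sum_mul]
    _ ≤ ∑ w ∈ range (w₀ + 1), 343 * C * Φ u * 4 ^ u * q ^ (u - w) := sum_le_sum hterm
    _ = 343 * C * Φ u * 4 ^ u * ∑ w ∈ range (w₀ + 1), q ^ (u - w) := by rw [mul_sum]
    _ ≤ 343 * C * Φ u * 4 ^ u * (q ^ (u - w₀) * (1 - q)⁻¹) := by
        apply mul_le_mul_of_nonneg_left (C6_geom q hq0 hq1 u w₀ hw)
        positivity
    _ ≤ 343 * C * Φ u * 4 ^ u * ((2 : ℝ) ^ (-(((u - w₀ : ℕ) : ℝ) / 5)) * (1 - q)⁻¹) := by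
        apply mul_le_mul_of_nonneg_left _ (by positivity)
        apply mul_le_mul_of_nonneg_right _ (by linarith)
        rw [hq, ← Real.rpow_natCast, ← Real.rpow_mul (by norm_num)]
        apply Real.rpow_le_rpow_of_exponent_le (by norm_num)
        have : (0 : ℝ) ≤ ((u - w₀ : ℕ) : ℝ) := Nat.cast_nonneg _
        linarith
    _ = _ := by ring

end Pool.Agent.T6
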