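import Pool.Agent.helper82.T6.SpecL
import Pool.Agent.helper23.Slope.RA

set_option autoImplicit false

/-!
# T6, P2: rough numbers
-/

namespace Pool.Agent.T6

open Finset Pool.Agent.helper3.FT

theorem P2 : P2_stmt := by
  classical
  obtain ⟨C₀, E, hC₀, hrs⟩ := Pool.Agent.helper96.Slope.rough_short
  refine ⟨C₀ * (4 * (2 * E + 2)) + 2 + (2 * E + 2), ?_, ?_⟩
  · have h1 : 0 ≤ C₀ * (4 * (2 * (E : ℝ) + 2)) := by positivity
    have h2 : (0 : ℝ) ≤ E := Nat.cast_nonneg _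
    linarith
  intro j X F hX hF
  have hXr : (0 : ℝ) ≤ X := Nat.cast_nonneg _
  have hj1 : (0 : ℝ) < (j : ℝ) + 1 := by positivity
  have hE0 : (0 : ℝ) ≤ E := Nat.cast_nonneg _
  rw [le_div_iff₀ hj1]
  have hsub : F ⊆ Ioc 0 X := by
    intro n hn
    have h := hF n hn
    rw [mem_Ioc]
    exact ⟨h.1, h.2.1⟩
  have hcard : (F.card : ℝ) ≤ X := by
    have h1 := card_le_card hsub
    rw [Nat.card_Ioc] at h1
    exact_mod_cast h1
  rcases lt_or_ge j (2 * E + 2) with hjE | hjE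
  · have h1 : (j : ℝ) + 1 ≤ 2 * E + 2 := by exact_mod_cast hjE
    have h2 : (F.card : ℝ) * ((j : ℝ) + 1) ≤ X * (2 * E + 2) := by
      apply mul_le_mul hcard h1 hj1.le hXr
    have h3 : 0 ≤ C₀ * (4 * (2 * (E : ℝ) + 2)) * X := by positivity
    nlinarith
  · set r := Nat.log 2 (j / (2 * E + 2)) with hr
    have hq : 1 ≤ j / (2 * E + 2) := (Nat.one_le_div_iff (by omega)).2 hjE
    have h1 : 2 ^ r ≤ j / (2 * E + 2) := Nat.pow_log_le_self 2 (by omega)
    have h2 : j / (2 * E + 2) < 2 ^ (r + 1) := Nat.lt_pow_succ_log_self (by norm_num) _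
    have h3 : 2 ^ r * (2 * E + 2) ≤ j := (Nat.le_div_iff_mul_le (by omega)).1 h1
    have h4 : j < 2 ^ (r + 1) * (2 * E + 2) := (Nat.div_lt_iff_lt_mul (by omega)).1 h2
    have hr1 : 1 ≤ 2 ^ r := Nat.one_le_two_pow
    have hZ : Pool.Agent.Lib.BrunHooley.Z r = 2 ^ 2 ^ r := rfl
    -- the rough numbers
    have hrg : ∀ n ∈ F, Pool.Agent.helper96.Slope.rg r n = 1 := by
      intro n hn
      unfold Pool.Agent.helper96.Slope.rg
      rw [if_pos]
      intro p hp hpn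
      obtain ⟨hp1, hp2⟩ := Nat.mem_primesLE.mp hp
      have h5 := (hF n hn).2.2 p hp2 hpn
      have h6 : 2 ^ j ≤ p := (Nat.le_log_iff_pow_le (by norm_num) hp2.pos.ne').1 h5
      rw [hZ] at hp1
      have h7 : 2 ^ j ≤ 2 ^ 2 ^ r := h6.trans hp1
      have h8 : j ≤ 2 ^ r := (Nat.pow_le_pow_iff_right (by norm_num)).1 h7
      nlinarith
    have hsum : (F.card : ℝ) ≤ ∑ n ∈ Ioc 0 (0 + X), Pool.Agent.helper96.Slope.rg r n := by
      rw [zero_add]
      calc (F.card : ℝ) = ∑ n ∈ F, Pool.Agent.helper96.Slope.rg r n := by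
            rw [sum_congr rfl hrg]; simp
        _ ≤ _ := by
            apply sum_le_sum_of_subset_of_nonneg hsub
            intro n _ _
            unfold Pool.Agent.helper96.Slope.rg
            split_ifs <;> norm_num
    have hmain := hsum.trans (hrs r 0 X)
    have hlog : Real.log (Pool.Agent.Lib.BrunHooley.Z r : ℝ) = 2 ^ r * Real.log 2 := by
      rw [hZ]
      push_cast
      rw [Real.log_pow]
      push_cast
      ring
    have hl2 : (1 : ℝ) / 2 ≤ Real.log 2 := by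
      have := Real.log_two_gt_d9
      linarith
    have h4r : (j : ℝ) + 1 ≤ 2 ^ r * (2 * (2 * E + 2)) := by
      have h : j + 1 ≤ 2 ^ (r + 1) * (2 * E + 2) := h4
      have h' : ((j + 1 : ℕ) : ℝ) ≤ ((2 ^ (r + 1) * (2 * E + 2) : ℕ) : ℝ) := by exact_mod_cast h
      push_cast at h'
      rw [pow_succ] at h'
      linarith
    have hlp : 0 < Real.log (Pool.Agent.Lib.BrunHooley.Z r : ℝ) := by
      rw [hlog]; positivity
    have hA : C₀ * X / Real.log (Pool.Agent.Lib.BrunHooley.Z r : ℝ) * ((j : ℝ) + 1) ≤ C₀ * (4 * (2 * E + 2)) * X := by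
      rw [div_mul_eq_mul_div, div_le_iff₀ hlp, hlog]
      have hpr : (0 : ℝ) < 2 ^ r := by positivity
      have h5 : (j : ℝ) + 1 ≤ (4 * (2 * E + 2)) * (2 ^ r * Real.log 2) := by
        calc (j : ℝ) + 1 ≤ 2 ^ r * (2 * (2 * E + 2)) := h4r
          _ = (4 * (2 * E + 2)) * (2 ^ r * (1 / 2)) := by ring
          _ ≤ (4 * (2 * E + 2)) * (2 ^ r * Real.log 2) := by
            apply mul_le_mul_of_nonneg_left _ (by positivity)
            exact mul_le_mul_of_nonneg_left hl2 hpr.le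
      calc C₀ * X * ((j : ℝ) + 1) ≤ C₀ * X * ((4 * (2 * E + 2)) * (2 ^ r * Real.log 2)) :=
            mul_le_mul_of_nonneg_left h5 (by positivity)
        _ = _ := by ring
    have hB : (Pool.Agent.Lib.BrunHooley.Z r : ℝ) ^ E * ((j : ℝ) + 1) ≤ 2 * X := by
      have hm : 2 * (2 ^ r * E) ≤ j := by nlinarith
      obtain ⟨k, hk⟩ : ∃ k, j = 2 ^ r * E + k := ⟨j - 2 ^ r * E, by omega⟩
      have hk2 : j ≤ 2 * k := by omega
      have hk3 : k + 1 ≤ 2 ^ k := Nat.lt_two_pow_self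
      have h6 : j + 1 ≤ 2 * 2 ^ k := by omega
      have h7 : (2 ^ 2 ^ r) ^ E * (j + 1) ≤ 2 * X := by
        calc (2 ^ 2 ^ r) ^ E * (j + 1) ≤ (2 ^ 2 ^ r) ^ E * (2 * 2 ^ k) := Nat.mul_le_mul_left _ h6
          _ = 2 * 2 ^ j := by rw [← pow_mul, hk, pow_add]; ring
          _ ≤ 2 * X := Nat.mul_le_mul_left _ hX
      rw [hZ]
      exact_mod_cast h7
    calc (F.card : ℝ) * ((j : ℝ) + 1) ≤ (C₀ * X / Real.log (Pool.Agent.Lib.BrunHooley.Z r : ℝ) +
          (Pool.Agent.Lib.BrunHooley.Z r : ℝ) ^ E) * ((j : ℝ) + 1) :=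
          mul_le_mul_of_nonneg_right hmain hj1.le
      _ ≤ C₀ * (4 * (2 * E + 2)) * X + 2 * X := by rw [add_mul]; exact add_le_add hA hB
      _ ≤ _ := by nlinarith

end Pool.Agent.T6
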