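import Pool.Agent.helper82.T6.SpecL

set_option autoImplicit false

/-!
# T6, P3: numbers composed of the primes of one block
-/

namespace Pool.Agent.T6

open Finset Pool.Agent.helper3.FT

/-- `m > 1` is composed of primes of the block `J` -/
def P3_K (J m : ℕ) : Prop := 1 < m ∧ ∀ p : ℕ, p.Prime → p ∣ m → Nat.log 2 p = J

lemma P3_mem {J p : ℕ} (hp : p.Prime) (h : Nat.log 2 p = J) : p ∈ pb 0 J := by
  unfold pb
  rw [mem_filter, mem_Ico]
  refine ⟨⟨?_, ?_⟩, hp, hp.pos⟩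
  · rw [← h]; exact Nat.pow_log_le_self 2 hp.pos.ne'
  · rw [← h]; exact Nat.lt_pow_succ_log_self (by norm_num) p

lemma P3_step (J N : ℕ) (T : ℝ)
    (hT : ∀ M : Finset ℕ, (∀ m ∈ M, P3_K J m ∧ m < N) → ∑ m ∈ M, (1 : ℝ) / m ≤ T)
    (M : Finset ℕ) (hM : ∀ m ∈ M, P3_K J m ∧ m ≤ N) :
    ∑ m ∈ M.filter (fun m => ¬ m.Prime), (1 : ℝ) / m ≤ (∑ p ∈ pb 0 J, (1 : ℝ) / p) * T := by
  classical
  set Mn := M.filter (fun m => ¬ m.Prime) with hMn
  set M' := Mn.image (fun m => m / m.minFac) with hM'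
  have hK : ∀ m ∈ Mn, m.minFac.Prime ∧ m.minFac * (m / m.minFac) = m ∧ m.minFac ∈ pb 0 J ∧
      P3_K J (m / m.minFac) ∧ m / m.minFac < N := by
    intro m hm
    rw [hMn, mem_filter] at hm
    obtain ⟨h1, h2⟩ := hm
    obtain ⟨⟨h3, h4⟩, h5⟩ := hM m h1
    have hp : m.minFac.Prime := Nat.minFac_prime (by omega)
    have hd : m.minFac ∣ m := Nat.minFac_dvd m
    have he : m.minFac * (m / m.minFac) = m := Nat.mul_div_cancel' hd
    have hne : m / m.minFac ≠ 1 := by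
      intro h
      rw [h, mul_one] at he
      exact h2 (he ▸ hp)
    have hn0 : m / m.minFac ≠ 0 := by
      intro h
      rw [h, mul_zero] at he
      omega
    refine ⟨hp, he, P3_mem hp (h4 _ hp hd), ⟨Nat.one_lt_iff_ne_zero_and_ne_one.2 ⟨hn0, hne⟩, ?_⟩, ?_⟩
    · intro p hpp hpd
      exact h4 p hpp (hpd.trans ⟨m.minFac, by rw [mul_comm]; exact he.symm⟩)
    · exact lt_of_lt_of_le (Nat.div_lt_self (by omega) hp.one_lt) h5
  have hinj : Set.InjOn (fun m : ℕ => (m.minFac, m / m.minFac)) (Mn : Set ℕ) := by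
    intro a ha b hb hab
    simp only [Prod.mk.injEq] at hab
    rw [← (hK a ha).2.1, ← (hK b hb).2.1, hab.1]
    rw [hab.1] at hab
    rw [hab.2]
  have h1 : ∑ m ∈ Mn, (1 : ℝ) / m = ∑ x ∈ Mn.image (fun m : ℕ => (m.minFac, m / m.minFac)),
      ((1 : ℝ) / x.1) * (1 / x.2) := by
    rw [sum_image hinj]
    refine sum_congr rfl fun m hm => ?_
    have h := (hK m hm).2.1
    have h' : (m : ℝ) = (m.minFac : ℝ) * ((m / m.minFac : ℕ) : ℝ) := by
      rw [← Nat.cast_mul, h]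
    simp only
    rw [one_div_mul_one_div, ← h']
  have h2 : Mn.image (fun m : ℕ => (m.minFac, m / m.minFac)) ⊆ pb 0 J ×ˢ M' := by
    intro x hx
    rw [mem_image] at hx
    obtain ⟨m, hm, rfl⟩ := hx
    rw [mem_product]
    exact ⟨(hK m hm).2.2.1, mem_image_of_mem _ hm⟩
  rw [h1]
  calc ∑ x ∈ Mn.image (fun m : ℕ => (m.minFac, m / m.minFac)), ((1 : ℝ) / x.1) * (1 / x.2)
      ≤ ∑ x ∈ pb 0 J ×ˢ M', ((1 : ℝ) / x.1) * (1 / x.2) :=
        sum_le_sum_of_subset_of_nonneg h2 (fun x _ _ => by positivity)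
    _ = (∑ p ∈ pb 0 J, (1 : ℝ) / p) * ∑ m ∈ M', (1 : ℝ) / m := by
        rw [sum_product, sum_mul_sum]
    _ ≤ (∑ p ∈ pb 0 J, (1 : ℝ) / p) * T := by
        apply mul_le_mul_of_nonneg_left _ (sum_nonneg fun p _ => by positivity)
        apply hT
        intro m hm
        rw [hM', mem_image] at hm
        obtain ⟨m', hm', rfl⟩ := hm
        exact (hK m' hm').2.2.2

lemma P3_primes (J : ℕ) (M : Finset ℕ) (hM : ∀ m ∈ M, P3_K J m) :
    ∑ m ∈ M.filter (fun m => m.Prime), (1 : ℝ) / m ≤ ∑ p ∈ pb 0 J, (1 : ℝ) / p := by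
  apply sum_le_sum_of_subset_of_nonneg
  · intro m hm
    rw [mem_filter] at hm
    exact P3_mem hm.2 ((hM m hm.1).2 m hm.2 dvd_rfl)
  · intro p _ _
    positivity

theorem P3 (hP1 : P1_stmt) : P3_stmt := by
  intro J M hJ hM
  set s := ∑ p ∈ pb 0 J, (1 : ℝ) / p with hs
  have hs0 : 0 ≤ s := sum_nonneg fun p _ => by positivity
  have hJr : (8 : ℝ) ≤ J := by exact_mod_cast hJ
  have hJ0 : (0 : ℝ) < J := by linarith
  have hs1 : s ≤ 4 / J := hP1 0 J (by omega)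
  have hs2 : s ≤ 1 / 2 := by
    refine hs1.trans ?_
    rw [div_le_div_iff₀ hJ0 (by norm_num)]
    linarith
  have key : ∀ N : ℕ, ∀ M : Finset ℕ, (∀ m ∈ M, P3_K J m ∧ m < N) → ∑ m ∈ M, (1 : ℝ) / m ≤ 2 * s := by
    intro N
    induction N with
    | zero =>
      intro M hM
      have : M = ∅ := by
        rw [eq_empty_iff_forall_notMem]
        intro m hm
        exact absurd (hM m hm).2 (by omega)
      rw [this]
      simp
      exact hs0
    | succ N ih =>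
      intro M hM
      have h1 := P3_step J N (2 * s) ih M (fun m hm => ⟨(hM m hm).1, Nat.lt_succ_iff.1 (hM m hm).2⟩)
      have h2 := P3_primes J M (fun m hm => (hM m hm).1)
      rw [← sum_filter_add_sum_filter_not M (fun m => m.Prime)]
      have h3 : s * (2 * s) ≤ s := by nlinarith
      linarith
  have hM' : ∀ m ∈ M, P3_K J m := fun m hm => hM m hm
  obtain ⟨N, hN⟩ : ∃ N, ∀ m ∈ M, m < N := by
    refine ⟨M.sup id + 1, fun m hm => ?_⟩
    exact Nat.lt_succ_iff.2 (le_sup (f := id) hm)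
  constructor
  · have h1 := key N M (fun m hm => ⟨hM' m hm, hN m hm⟩)
    calc ∑ m ∈ M, (1 : ℝ) / m ≤ 2 * s := h1
      _ ≤ 2 * (4 / J) := by linarith
      _ = 8 / J := by ring
  · have h1 := P3_step J N (2 * s) (key N) M (fun m hm => ⟨hM' m hm, (hN m hm).le⟩)
    calc ∑ m ∈ M.filter (fun m => ¬ m.Prime), (1 : ℝ) / m ≤ s * (2 * s) := h1
      _ = 2 * s ^ 2 := by ring
      _ ≤ 2 * (4 / J) ^ 2 := by
        apply mul_le_mul_of_nonneg_left _ (by norm_num)
        exact pow_le_pow_left₀ hs0 hs1 2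
      _ = 32 / (J : ℝ) ^ 2 := by ring

end Pool.Agent.T6
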