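import Pool.Agent.helper82.T6.SpecL

set_option autoImplicit false

/-!
# T6, P5: the products of partners
-/

namespace Pool.Agent.T6

open Finset Pool.Agent.helper3.FT

lemma P5_bp {J q : ℕ} (h : (bp J q).Prime) : bp J q ∣ q ∧ Nat.log 2 (bp J q) = J := by
  have h1 : bp J q ∣ ∏ p ∈ q.primeFactors.filter (fun p => Nat.log 2 p = J), p ^ q.factorization p := by
    unfold bp; exact dvd_rfl
  obtain ⟨p, hp, hd⟩ := (Prime.dvd_finsetProd_iff h.prime _).1 h1
  rw [mem_filter, Nat.mem_primeFactors] at hp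
  obtain ⟨⟨hpp, hpq, hq0⟩, hpl⟩ := hp
  have h2 : bp J q ∣ p := h.dvd_of_dvd_pow hd
  have h3 : bp J q = p := (Nat.prime_dvd_prime_iff_eq h hpp).1 h2
  rw [h3]
  exact ⟨hpq, hpl⟩

lemma P5_pb {y J p : ℕ} (h : p ∈ pb y J) : p.Prime ∧ y < p ∧ Nat.log 2 p = J ∧ p < 2 ^ (J + 1) := by
  unfold pb at h
  rw [mem_filter, mem_Ico] at h
  obtain ⟨⟨h1, h2⟩, h3, h4⟩ := h
  refine ⟨h3, h4, ?_, h2⟩
  exact Nat.log_eq_of_pow_le_of_lt_pow h1 h2

theorem P5 (hP1 : P1_stmt) : P5_stmt := by
  classical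
  intro y j q hq hR hy
  have hSg : ∀ J ∈ Sg j q, J < j ∧ (bp J q).Prime ∧ bp J q ∣ q ∧ Nat.log 2 (bp J q) = J ∧ y < bp J q := by
    intro J hJ
    unfold Sg at hJ
    rw [mem_filter, mem_range] at hJ
    obtain ⟨h1, h2⟩ := hJ
    obtain ⟨h3, h4⟩ := P5_bp h2
    exact ⟨h1, h2, h3, h4, hR _ h2 h3⟩
  have hJ1 : ∀ J ∈ Sg j q, 1 ≤ J := by
    intro J hJ
    obtain ⟨h1, h2, h3, h4, h5⟩ := hSg J hJ
    rw [← h4]
    exact Nat.log_pos (by norm_num) h2.two_le
  constructor
  · calc ∑ q' ∈ QP y j q, (1 : ℝ) / q'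
        ≤ ∑ f ∈ (Sg j q).pi (fun J => pb y J), (1 : ℝ) / ((∏ x ∈ (Sg j q).attach, f x.1 x.2 : ℕ) : ℝ) := by
          unfold QP
          refine sum_image_le_of_nonneg ?_
          intro i _
          positivity
      _ = ∏ J ∈ Sg j q, ∑ p ∈ pb y J, (1 : ℝ) / p := by
          rw [prod_sum]
          refine sum_congr rfl fun f _ => ?_
          rw [Nat.cast_prod, prod_div_distrib]
          simp
      _ ≤ ∏ J ∈ Sg j q, (4 / J : ℝ) := by
          apply prod_le_prod
          · intro J _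
            exact sum_nonneg fun p _ => by positivity
          · intro J hJ
            exact hP1 y J (hJ1 J hJ)
  · intro q' hq'
    unfold QP at hq'
    rw [mem_image] at hq'
    obtain ⟨f, hf, rfl⟩ := hq'
    rw [mem_pi] at hf
    have hfp : ∀ x ∈ (Sg j q).attach, (f x.1 x.2).Prime ∧ y < f x.1 x.2 ∧ Nat.log 2 (f x.1 x.2) = x.1 ∧
        f x.1 x.2 < 2 ^ (x.1 + 1) := by
      intro x _
      exact P5_pb (hf x.1 x.2)
    have hprime : ∀ p : ℕ, p.Prime → p ∣ ∏ x ∈ (Sg j q).attach, f x.1 x.2 → y < p ∧ Nat.log 2 p < j := by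
      intro p hp hd
      obtain ⟨x, hx, hd'⟩ := (Prime.dvd_finsetProd_iff hp.prime _).1 hd
      obtain ⟨h1, h2, h3, h4⟩ := hfp x hx
      have h5 : p = f x.1 x.2 := (Nat.prime_dvd_prime_iff_eq hp h1).1 hd'
      rw [h5]
      refine ⟨h2, ?_⟩
      rw [h3]
      exact (hSg x.1 x.2).1
    refine ⟨?_, ?_, fun p hp hd => (hprime p hp hd).1, fun p hp hd => (hprime p hp hd).2⟩
    · exact Nat.succ_le_of_lt (prod_pos fun x hx => (hfp x hx).1.pos)
    · -- sizes
      have hdv : ∏ J ∈ Sg j q, bp J q ∣ q := by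
        have hinj : Set.InjOn (fun J => bp J q) (Sg j q : Set ℕ) := by
          intro a ha b hb hab
          have h1 := (hSg a ha).2.2.2.1
          have h2 := (hSg b hb).2.2.2.1
          simp only at hab
          rw [← h1, ← h2, hab]
        rw [← prod_image (f := fun x => x) hinj]
        apply Finset.prod_primes_dvd
        · intro p hp
          rw [mem_image] at hp
          obtain ⟨J, hJ, rfl⟩ := hp
          exact (hSg J hJ).2.1.prime
        · intro p hp
          rw [mem_image] at hp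
          obtain ⟨J, hJ, rfl⟩ := hp
          exact (hSg J hJ).2.2.1
      have hle : ∏ J ∈ Sg j q, bp J q ≤ q := Nat.le_of_dvd (by omega) hdv
      have hyk : y ^ (Sg j q).card ≤ q := by
        refine le_trans ?_ hle
        apply Finset.pow_card_le_prod
        intro J hJ
        exact (hSg J hJ).2.2.2.2.le
      have hup : ∏ x ∈ (Sg j q).attach, f x.1 x.2 ≤ 2 ^ (Sg j q).card * ∏ J ∈ Sg j q, bp J q := by
        rw [← prod_attach (Sg j q) (fun J => bp J q)]
        calc ∏ x ∈ (Sg j q).attach, f x.1 x.2 ≤ ∏ x ∈ (Sg j q).attach, (2 * bp x.1 q) := by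
              apply prod_le_prod' 
              intro x hx
              obtain ⟨h1, h2, h3, h4⟩ := hfp x hx
              have h5 := (hSg x.1 x.2).2.2.2.1
              have h6 : 2 ^ x.1 ≤ bp x.1 q := by
                conv_lhs => rw [← h5]
                exact Nat.pow_log_le_self 2 (hSg x.1 x.2).2.1.pos.ne'
              rw [pow_succ] at h4
              omega
          _ = 2 ^ (Sg j q).card * ∏ x ∈ (Sg j q).attach, bp x.1 q := by
              rw [prod_mul_distrib, prod_const, card_attach]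
      calc (∏ x ∈ (Sg j q).attach, f x.1 x.2) ^ 5 ≤ (2 ^ (Sg j q).card * q) ^ 5 :=
            Nat.pow_le_pow_left (hup.trans (Nat.mul_le_mul_left _ hle)) 5
        _ = 32 ^ (Sg j q).card * q ^ 5 := by
            rw [mul_pow, ← pow_mul, mul_comm (Sg j q).card 5, pow_mul]; norm_num
        _ ≤ y ^ (Sg j q).card * q ^ 5 := Nat.mul_le_mul_right _ (Nat.pow_le_pow_left hy _)
        _ ≤ q * q ^ 5 := Nat.mul_le_mul_right _ hyk
        _ = q ^ 6 := by ring

end Pool.Agent.T6
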